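import Pool.Agent.Helper15.AF.Goals2
import Pool.Agent.Helper88.JT.BRJ
import Pool.Agent.Helper89.JT.RNJ

/-!
# AF-FOM: good numbers fool the functions of decision lists and linear forms, for one part
-/

namespace Pool.Agent.Helper60.AF

open scoped Classical
open Pool.Agent.Helper78.DT
open Pool.Agent.Helper78.JT
open Pool.Agent.Helper15.AF

theorem pr3_swap {q P : ℕ} (E : Fin q × Fin q × Fin P → Prop) :
    pr E = av fun w : Fin P => av fun i' : Fin q => pr fun i : Fin q => E (i, i', w) := by
  unfold pr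
  rw [av_prod]
  rw [av_comm (fun (a : Fin q) (b : Fin q × Fin P) => if E (a, b) then (1 : ℝ) else 0)]
  rw [av_prod]
  exact av_comm (fun (i' : Fin q) (w : Fin P) => av fun i : Fin q =>
    if E (i, i', w) then (1 : ℝ) else 0)

theorem in_le_one {q P : ℕ} (E : Fin q × Fin q × Fin P → Prop) (w : Fin P) :
    (av fun i' : Fin q => pr fun i : Fin q => E (i, i', w)) ≤ 1 :=
  av_le_of_le zero_le_one fun _ => pr_le_one _

theorem in_nonneg {q P : ℕ} (E : Fin q × Fin q × Fin P → Prop) (w : Fin P) :
    0 ≤ (av fun i' : Fin q => pr fun i : Fin q => E (i, i', w)) :=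
  av_nonneg fun _ => pr_nonneg _

theorem pr3_upper {q P : ℕ} [Nonempty (Fin P)] (E : Fin q × Fin q × Fin P → Prop)
    (B : Fin P → Prop) (c : ℝ) (hc : 0 ≤ c)
    (h : ∀ w, ¬ B w → (av fun i' : Fin q => pr fun i : Fin q => E (i, i', w)) ≤ c) :
    pr E ≤ c + pr B := by
  rw [pr3_swap]
  have h1 : (av fun w : Fin P => av fun i' : Fin q => pr fun i : Fin q => E (i, i', w)) ≤
      av fun w : Fin P => c + (if B w then (1 : ℝ) else 0) := by
    refine av_mono fun w => ?_
    by_cases hz : B w
    · rw [if_pos hz]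
      have := in_le_one E w
      linarith
    · rw [if_neg hz]
      have := h w hz
      linarith
  rw [av_add (fun _ : Fin P => c) (fun w => if B w then (1 : ℝ) else 0), av_const] at h1
  exact h1

theorem pr3_lower {q P : ℕ} [Nonempty (Fin P)] (E : Fin q × Fin q × Fin P → Prop)
    (B : Fin P → Prop) (c : ℝ) (hc : c ≤ 1)
    (h : ∀ w, ¬ B w → c ≤ (av fun i' : Fin q => pr fun i : Fin q => E (i, i', w))) :
    c ≤ pr E + pr B := by
  rw [pr3_swap]
  have h1 : (av fun _ : Fin P => c) ≤
      av fun w : Fin P => (av fun i' : Fin q => pr fun i : Fin q => E (i, i', w)) +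
        (if B w then (1 : ℝ) else 0) := by
    refine av_mono fun w => ?_
    by_cases hz : B w
    · rw [if_pos hz]
      have := in_nonneg E w
      linarith
    · rw [if_neg hz]
      have := h w hz
      linarith
  rw [av_add (fun w : Fin P => av fun i' : Fin q => pr fun i : Fin q => E (i, i', w))
    (fun w => if B w then (1 : ℝ) else 0), av_const] at h1
  exact h1

theorem one_w (hUni : UniStmt) (hRnm : RnmStmt) {n P q r ρ t s D m e : ℕ} {κ δ δ' μ : ℝ}
    (F : (Fin r → Bool) → Bool → (Fin ρ → ZMod 2) → Bool) (Y : ℕ → Bool) (z : ℕ → ℕ)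
    (a : Fin ρ → Fin n → ZMod 2) (c : Fin ρ → ZMod 2) (g : Fin r → DL (Fin n)) (hP : 0 < P)
    (hδ : 0 ≤ δ)
    (hg : ∀ j, Wid t (g j) ∧ (g j).length ≤ s) (hD : (varsJ g).ncard ≤ D)
    (hY : GoodY Y m P e D μ a) (hA : GoodA Y m P e q t s κ δ F a z)
    (hB : GoodB Y m P e q t s D κ δ' μ F a z) (w : Fin P) (hw : GoodW P e D w μ a (varsJ g)) :
    |(av fun i' : Fin q => pr fun i : Fin q =>
        ts F t κ g a c fun v => gb Y m P e (z i) (z i') w v) -
      pr (fun x : Fin n → Bool => ts F t κ g a c x)| ≤ δ + δ' := by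
  have h1 : ∀ i' : Fin q, |(pr fun i : Fin q =>
      ts F t κ g a c fun v => gb Y m P e (z i) (z i') w v) -
        th Y m P e w t κ F g a c (z i')| ≤ δ := by
    intro i'
    obtain ⟨r1, r2⟩ := hRnm P e w n r ρ t s κ F g a c hP (fun v => ip Y m (z i') v) hw.1
    have h2 := hA w w.2 (fun j => ren (hF P e w hP) (flp (fun v => ip Y m (z i') v) (g j)))
      (fun i => c i + dot (a i) fun v => ip Y m (z i') v) (r2 hg)
    have e1 : (pr fun i : Fin q => ts F t κ g a c fun v => gb Y m P e (z i) (z i') w v) =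
        pr fun i : Fin q => ts F t κ
          (fun j => ren (hF P e w hP) (flp (fun v => ip Y m (z i') v) (g j)))
          (fun i => hv P e w (a i)) (fun i => c i + dot (a i) fun v => ip Y m (z i') v)
          (fun u => ip Y m (z i) u) :=
      pr_congr fun i => r1 (fun u => ip Y m (z i) u)
    have e2 : th Y m P e w t κ F g a c (z i') =
        pr fun y : Fin (2 ^ m) => ts F t κ
          (fun j => ren (hF P e w hP) (flp (fun v => ip Y m (z i') v) (g j)))
          (fun i => hv P e w (a i)) (fun i => c i + dot (a i) fun v => ip Y m (z i') v)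
          (fun u => ip Y m y u) :=
      pr_congr fun y => r1 (fun u => ip Y m y u)
    rw [e1, e2]
    exact h2
  have h3 := hB w w.2 g c hg hw
  have h4 := hUni Y m P e D w n r ρ t κ μ F g a c w.2 hD hY hw
  have h5 : |(av fun i' : Fin q => pr fun i : Fin q =>
        ts F t κ g a c fun v => gb Y m P e (z i) (z i') w v) -
      (av fun i' : Fin q => th Y m P e w t κ F g a c (z i'))| ≤ δ := by
    rw [← av_sub]
    exact (abs_av_le _).trans (av_le_of_le hδ h1)
  rw [← h4]
  have h6 := abs_sub_le (av fun i' : Fin q => pr fun i : Fin q =>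
        ts F t κ g a c fun v => gb Y m P e (z i) (z i') w v)
      (av fun i' : Fin q => th Y m P e w t κ F g a c (z i'))
      (av fun u : Fin (2 ^ m) => th Y m P e w t κ F g a c u)
  linarith

theorem fom (hUni : UniStmt) (hRnm : RnmStmt) (hWgd : WgdStmt) : FomStmt := by
  intro n P q r ρ t s D m e η κ δ δ' μ H Y z a hP hq hη hη1 hκ hs1 hn hμ hδ hδ' hD hY hG f c hf
  have hP0 : 0 < P := hP.pos
  have : Nonempty (Fin P) := ⟨⟨0, hP0⟩⟩
  have h2t : (0 : ℝ) < 2 ^ t := by positivity
  have hk : 0 < κ / 2 ^ t := by positivity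
  obtain ⟨hB1, -⟩ := Pool.Agent.Helper88.JT.brj (Fin n) η (κ / 2 ^ t) t r hη hη1 hk
  obtain ⟨g, hsub, hlen, hbr⟩ := hB1 f hf
  have hkk : (2 : ℝ) ^ t * (κ / 2 ^ t) = κ := by field_simp
  rw [hkk] at hbr
  have hwg : ∀ j, Wid t (g j) := fun j p hp => hf j p ((hsub j).subset hp)
  have hgs : ∀ j, (g j).length ≤ s := by
    intro j
    have h1 : ((g j).length : ℝ) * (κ / 2 ^ t) ^ η ≤ s * (κ / 2 ^ t) ^ η := (hlen j).trans hs1
    have h2 : 0 < (κ / 2 ^ t) ^ η := Real.rpow_pos_of_pos hk η
    exact_mod_cast le_of_mul_le_mul_right h1 h2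
  -- the exceptional event
  have hbad : pr (BadJ t κ g) ≤ r * ((s + 1) * (κ ^ (1 - η) * (2 / η) ^ t)) :=
    (Pool.Agent.Helper88.JT.brj (Fin n) η κ t r hη hη1 hκ).2 s g hgs
  -- few variables
  have hvars : (varsJ g).ncard ≤ D := by
    obtain ⟨-, -, -, -, h⟩ := Pool.Agent.Helper89.JT.rnj (Fin n) (Fin n) id r t s κ
      (fun _ => true) g
    exact (h fun j => ⟨hwg j, hgs j⟩).trans hD
  set B : Fin P → Prop := fun w => ¬ GoodW P e D w μ a (varsJ g) with hBdef
  have hB : pr B ≤ (D : ℝ) ^ 2 * e / P + D * μ := hWgd P e D n ρ μ a (varsJ g) hP hn hμ hvars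
  have hmain : ∀ (b : Bool) (w : Fin P), ¬ B w →
      |(av fun i' : Fin q => pr fun i : Fin q =>
        ts (Fb H b) t κ g a c fun v => gb Y m P e (z i) (z i') w v) -
      pr (fun x : Fin n → Bool => ts (Fb H b) t κ g a c x)| ≤ δ + δ' := by
    intro b w hw
    exact one_w hUni hRnm (Fb H b) Y z a c g hP0 hδ (fun j => ⟨hwg j, hgs j⟩) hvars hY
      (hG b).1 (hG b).2 w (not_not.1 hw)
  have hup : pr (fun p : Fin q × Fin q × Fin P =>
      ts (Fb H true) t κ g a c fun v => gb Y m P e (z p.1) (z p.2.1) p.2.2 v) ≤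
      (pr (fun x : Fin n → Bool => ts (Fb H true) t κ g a c x) + (δ + δ')) + pr B := by
    refine pr3_upper _ B _ ?_ ?_
    · have := pr_nonneg (fun x : Fin n → Bool => ts (Fb H true) t κ g a c x)
      linarith
    · intro w hw
      have := (abs_le.mp (hmain true w hw)).2
      linarith
  have hlow : pr (fun x : Fin n → Bool => ts (Fb H false) t κ g a c x) - (δ + δ') ≤
      pr (fun p : Fin q × Fin q × Fin P =>
        ts (Fb H false) t κ g a c fun v => gb Y m P e (z p.1) (z p.2.1) p.2.2 v) + pr B := by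
    refine pr3_lower _ B _ ?_ ?_
    · have := pr_le_one (fun x : Fin n → Bool => ts (Fb H false) t κ g a c x)
      linarith
    · intro w hw
      have := (abs_le.mp (hmain false w hw)).1
      linarith
  have hev : ∀ x : Fin n → Bool, ¬ BadJ t κ g x → (fun j => ev (g j) x) = fun j => ev (f j) x :=
    fun x hb => funext fun j => (hbr x hb j).symm
  have himp1 : ∀ x : Fin n → Bool, H (fun j => ev (f j) x) (fun i => dot (a i) x + c i) = true →
      ts (Fb H true) t κ g a c x := by
    intro x hx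
    unfold ts Fb
    by_cases hb : BadJ t κ g x
    · simp [hb]
    · rw [hev x hb]
      simp [hb, hx]
  have himp2 : ∀ x : Fin n → Bool, ts (Fb H false) t κ g a c x →
      H (fun j => ev (f j) x) (fun i => dot (a i) x + c i) = true := by
    intro x hx
    unfold ts Fb at hx
    by_cases hb : BadJ t κ g x
    · simp [hb] at hx
    · rw [hev x hb] at hx
      simpa [hb] using hx
  have hup2 : pr (fun p : Fin q × Fin q × Fin P =>
        H (fun j => ev (f j) fun v => gb Y m P e (z p.1) (z p.2.1) p.2.2 v)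
          (fun i => dot (a i) (fun v => gb Y m P e (z p.1) (z p.2.1) p.2.2 v) + c i) = true) ≤
      pr (fun p : Fin q × Fin q × Fin P =>
        ts (Fb H true) t κ g a c fun v => gb Y m P e (z p.1) (z p.2.1) p.2.2 v) :=
    pr_mono fun p hp => himp1 _ hp
  have hlow2 : pr (fun p : Fin q × Fin q × Fin P =>
        ts (Fb H false) t κ g a c fun v => gb Y m P e (z p.1) (z p.2.1) p.2.2 v) ≤
      pr (fun p : Fin q × Fin q × Fin P =>
        H (fun j => ev (f j) fun v => gb Y m P e (z p.1) (z p.2.1) p.2.2 v)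
          (fun i => dot (a i) (fun v => gb Y m P e (z p.1) (z p.2.1) p.2.2 v) + c i) = true) :=
    pr_mono fun p hp => himp2 _ hp
  have hup3 : pr (fun x : Fin n → Bool => ts (Fb H true) t κ g a c x) ≤
      pr (fun x : Fin n → Bool =>
        H (fun j => ev (f j) x) (fun i => dot (a i) x + c i) = true) + pr (BadJ t κ g) := by
    refine pr_le_add_of_imp fun x hx => ?_
    by_cases hb : BadJ t κ g x
    · exact Or.inr hb
    · refine Or.inl ?_
      unfold ts Fb at hx
      rw [hev x hb] at hx
      simpa [hb] using hx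
  have hlow3 : pr (fun x : Fin n → Bool =>
        H (fun j => ev (f j) x) (fun i => dot (a i) x + c i) = true) ≤
      pr (fun x : Fin n → Bool => ts (Fb H false) t κ g a c x) + pr (BadJ t κ g) := by
    refine pr_le_add_of_imp fun x hx => ?_
    by_cases hb : BadJ t κ g x
    · exact Or.inr hb
    · refine Or.inl ?_
      unfold ts Fb
      rw [hev x hb]
      simp [hb, hx]
  rw [abs_le]
  constructor
  · linarith
  · linarith

end Pool.Agent.Helper60.AF
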